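import Pool.Agent.H.MP_dfd283_nt.Defs

namespace Pool.Agent.H.MP_dfd283_nt

theorem g0 : rows 0 10 = true := by decide +kernel

theorem g1 : rows 10 10 = true := by decide +kernel

theorem g2 : rows 20 10 = true := by decide +kernel

theorem g3 : rows 30 10 = true := by decide +kernel

theorem g4 : rows 40 10 = true := by decide +kernel

theorem g5 : rows 50 10 = true := by decide +kernel

theorem g6 : rows 60 10 = true := by decide +kernel

theorem g7 : rows 70 10 = true := by decide +kernel

end Pool.Agent.H.MP_dfd283_nt
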