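import Pool.Agent.H.MP_dfd283_nt.R0

namespace Pool.Agent.H.MP_dfd283_nt

theorem g8 : rows 80 10 = true := by decide +kernel

theorem g9 : rows 90 10 = true := by decide +kernel

theorem g10 : rows 100 10 = true := by decide +kernel

theorem g11 : rows 110 10 = true := by decide +kernel

theorem g12 : rows 120 10 = true := by decide +kernel

theorem g13 : rows 130 10 = true := by decide +kernel

theorem g14 : rows 140 10 = true := by decide +kernel

theorem g15 : rows 150 10 = true := by decide +kernel

end Pool.Agent.H.MP_dfd283_nt
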