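import Pool.Agent.H.MP_dfd283_nt.R1

namespace Pool.Agent.H.MP_dfd283_nt

theorem g16 : rows 160 10 = true := by decide +kernel

theorem g17 : rows 170 10 = true := by decide +kernel

theorem g18 : rows 180 10 = true := by decide +kernel

theorem g19 : rows 190 10 = true := by decide +kernel

theorem g20 : rows 200 10 = true := by decide +kernel

theorem g21 : rows 210 10 = true := by decide +kernel

theorem g22 : rows 220 10 = true := by decide +kernel

theorem g23 : rows 230 10 = true := by decide +kernel

end Pool.Agent.H.MP_dfd283_nt
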