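import Mathlib
import Pool.Agent.H.MP_dfd283_nt.R2

namespace Pool.Agent.H.MP_dfd283_nt

theorem band {a b : Bool} (h : (Bool.rec false b a : Bool) = true) : a = true ∧ b = true := by
  cases a <;> simp_all

theorem bor {a b : Bool} (h : (Bool.rec b true a : Bool) = true) : a = true ∨ b = true := by
  cases a <;> simp_all

theorem mS_bit (n k : ℕ) (h : k < n) : (mS n).testBit (k * k) = true := by
  induction n with
  | zero => omega
  | succ n ih =>
    show (mS n ||| 2 ^ (n * n)).testBit _ = true
    rw [Nat.testBit_or]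
    rcases Nat.lt_succ_iff_lt_or_eq.1 h with h | rfl
    · simp [ih h]
    · simp

theorem mR_bit (n k : ℕ) (h : k < n) : (mR n).testBit (56271 - k * k) = true := by
  induction n with
  | zero => omega
  | succ n ih =>
    show (mR n ||| 2 ^ (56271 - n * n)).testBit _ = true
    rw [Nat.testBit_or]
    rcases Nat.lt_succ_iff_lt_or_eq.1 h with h | rfl
    · simp [ih h]
    · simp

theorem btw_sound {k r : ℕ} (h : btw k r = true) : ¬ IsSquare k := by
  obtain ⟨h1, h2⟩ := band h
  have h1 : r * r + 1 ≤ k := Nat.le_of_ble_eq_true h1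
  have h2 : k + 1 ≤ (r + 1) * (r + 1) := Nat.le_of_ble_eq_true h2
  rintro ⟨m, rfl⟩
  have a : r < m := by nlinarith
  nlinarith

theorem nonsq_sound {k : ℕ} (h : nonsq k = true) : ¬ IsSquare k := by
  rcases bor h with h | h <;> exact btw_sound h

theorem bits_sound (p c n : ℕ) : ∀ A, bits p c n A = true → ∀ t, A.testBit t = true →
    ¬ IsSquare (p * (c + 14 * t)) := by
  induction n with
  | zero =>
    intro A h t ht
    have : A = 0 := Nat.eq_of_beq_eq_true h
    simp [this] at ht
  | succ n ih =>
    intro A h t ht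
    rcases bor h with h | h
    · have : A = 0 := Nat.eq_of_beq_eq_true h
      simp [this] at ht
    · obtain ⟨h1, h2⟩ := band h
      by_cases e : t = lg A 16 0
      · rw [e]; exact nonsq_sound h1
      · refine ih _ h2 t ?_
        show (A ^^^ 2 ^ lg A 16 0).testBit t = true
        rw [Nat.testBit_xor, ht, Nat.testBit_two_pow_of_ne (Ne.symm e)]; rfl

theorem pair_sound {x y : ℕ} (h : pair x y = true) (z w : ℕ)
    (e : 56271 = x ^ 2 + y ^ 2 + z ^ 2 + w ^ 2) :
    ¬ IsSquare (x * y * (42 * x ^ 2 + 98 * y ^ 2 + 14 * z ^ 2)) := by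
  have := bits_sound _ _ _ _ h (z * z) (by
    show (lS &&& (lR >>> (x * x + y * y))).testBit _ = true
    rw [← Nat.eq_of_beq_eq_true eS, ← Nat.eq_of_beq_eq_true eR, Nat.testBit_and,
      Nat.testBit_shiftRight, mS_bit 238 z (by nlinarith),
      show x * x + y * y + z * z = 56271 - w * w by
        rw [e]; simp only [pow_two]; omega, mR_bit 238 w (by nlinarith)]; rfl)
  simp only [pow_two]
  exact this

theorem row_sound (x n : ℕ) (h : row x n = true) : ∀ y < n, pair x y = true := by
  induction n with
  | zero => intro y hy; omega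
  | succ n ih =>
    obtain ⟨h1, h2⟩ := band h
    intro y hy
    rcases Nat.lt_succ_iff_lt_or_eq.1 hy with hy | rfl
    · exact ih h2 y hy
    · exact h1

theorem rows_sound (x n : ℕ) (h : rows x n = true) : ∀ i < n, row (x + i) 238 = true := by
  induction n with
  | zero => intro y hy; omega
  | succ n ih =>
    obtain ⟨h1, h2⟩ := band h
    intro y hy
    rcases Nat.lt_succ_iff_lt_or_eq.1 hy with hy | rfl
    · exact ih h2 y hy
    · exact h1

theorem all_rows (x : ℕ) (hx : x < 240) : row x 238 = true := by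
  have G : ∀ c < 24, rows (10 * c) 10 = true := by
    intro c hc
    interval_cases c
    exacts [g0, g1, g2, g3, g4, g5, g6, g7, g8, g9, g10, g11, g12, g13, g14, g15, g16, g17, g18, g19, g20, g21, g22, g23]
  have := rows_sound _ _ (G (x / 10) (by omega)) (x % 10) (by omega)
  rwa [Nat.div_add_mod] at this

theorem main (x y z w : ℕ) (e : 56271 = x ^ 2 + y ^ 2 + z ^ 2 + w ^ 2) :
    ¬ IsSquare (x * y * (42 * x ^ 2 + 98 * y ^ 2 + 14 * z ^ 2)) :=
  pair_sound (row_sound x 238 (all_rows x (by nlinarith)) y (by nlinarith)) z w e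

end Pool.Agent.H.MP_dfd283_nt
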